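import Pool.Agent.EDG.Stmts

/-!
# EDG, row TRU: the true relation
-/

set_option autoImplicit false

namespace Pool.Agent.EDG.H64

open Polynomial Finset
open Pool.Agent.EDG

theorem sum_sub (l : ℕ) : ∑ j ∈ range (2 * l + 1), (3 * l - j) = (2 * l + 1) * (2 * l) := by
  have h1 : ∑ j ∈ range (2 * l + 1), (3 * l - j) + ∑ j ∈ range (2 * l + 1), j =
      (2 * l + 1) * (3 * l) := by
    rw [← sum_add_distrib]
    have h2 : ∀ j ∈ range (2 * l + 1), (3 * l - j) + j = 3 * l := by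
      intro j hj
      have := mem_range.1 hj
      omega
    rw [sum_congr rfl h2, sum_const, card_range, smul_eq_mul]
  have h3 := Finset.sum_range_id_mul_two (2 * l + 1)
  have h4 : 2 * l + 1 - 1 = 2 * l := by omega
  rw [h4] at h3
  have h5 : (∑ j ∈ range (2 * l + 1), j) = (2 * l + 1) * l := by
    have h6 : (2 * l + 1) * (2 * l) = ((2 * l + 1) * l) * 2 := by ring
    omega
  rw [h5] at h1
  have h7 : (2 * l + 1) * (3 * l) = (2 * l + 1) * (2 * l) + (2 * l + 1) * l := by ring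
  omega

theorem count (D l : ℕ) (hD : 0 < D) (hl : 0 < l) :
    D * (4 * l * (4 * l + 1) / 2) < 2 * D * ∑ j ∈ range (2 * l + 1), (3 * l - j) := by
  rw [sum_sub]
  have h1 : 4 * l * (4 * l + 1) / 2 = 8 * l * l + 2 * l := by
    have h2 : 4 * l * (4 * l + 1) = (8 * l * l + 2 * l) * 2 := by ring
    rw [h2, Nat.mul_div_cancel _ (by norm_num)]
  rw [h1]
  have h3 : 2 * D * ((2 * l + 1) * (2 * l)) = D * (8 * l * l + 2 * l) + D * l * 2 := by ring
  rw [h3]
  have h4 : 0 < D * l := Nat.mul_pos hD hl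
  omega

/-- **TRU** -/
theorem tru : TruStmt := by
  intro hREM hCNG hGRF hEXP hPIG hQDG hSZE hNRM hBND hTHN n g hg μ η l hη hμ h5
  have hD : 0 < g.natDegree := hg.natDegree_pos
  have hl : 0 < l := by
    rcases Nat.eq_zero_or_pos l with h0 | h0
    · exfalso
      subst h0
      have h1 : η ≠ 0 := by
        rintro rfl
        rw [pow_zero] at hη
        omega
      have h2 : (5 : ℕ) ^ 1 ≤ 5 ^ (μ + η) := Nat.pow_le_pow_right (by norm_num) (by omega)
      rw [pow_zero] at h5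
      omega
    · exact h0
  obtain ⟨a, hne, hsz, hdv⟩ := hREM hCNG hGRF hEXP hPIG hQDG n g hg (2 * l + 1)
    (2 * g.natDegree) (3 * l) (4 * l) (by omega) (count g.natDegree l hD hl)
  obtain ⟨hInF, hnz⟩ := hTHN hQDG (2 * l + 1) (2 * g.natDegree) a (by omega)
  refine ⟨Tha (2 * l + 1) (2 * g.natDegree) a, hnz hne, hInF, fun i => ?_⟩
  obtain ⟨r, hr⟩ := hdv i
  have hgr : g ∣ r := by
    refine hNRM g r hg.monic hg.irr fun z hz => ?_
    obtain ⟨-, hy⟩ := hBND n g hg z hz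
    have h1 : ‖ev z (it z (-z) i) (Tha (2 * l + 1) (2 * g.natDegree) a)‖ ≤
        ((2 : ℝ) ^ (3 * l) - 1) * 5 ^ (μ + η) := by
      refine hSZE z hy (2 * l + 1) (2 * g.natDegree) μ η hμ hη a _ (fun j e => ?_) i
      have h2 : (2 : ℤ) ^ j * |a j e| ≤ 2 ^ (3 * l) - 1 := by
        have := hsz j e
        omega
      have h3 : (((2 : ℤ) ^ j * |a j e| : ℤ) : ℝ) ≤ (((2 : ℤ) ^ (3 * l) - 1 : ℤ) : ℝ) :=
        Int.cast_le.2 h2
      simpa only [Int.cast_mul, Int.cast_pow, Int.cast_ofNat, Int.cast_abs, Int.cast_sub,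
        Int.cast_one] using h3
    have h2 : ev z (it z (-z) i) (Tha (2 * l + 1) (2 * g.natDegree) a) =
        (2 : ℂ) ^ (4 * l) * aeval z r := by
      obtain ⟨q, hq⟩ := hr
      have h3 := congrArg (aeval z) hq
      rw [map_sub, map_mul, map_mul, hz, zero_mul, aeval_ev, aeval_Yp, aeval_C] at h3
      have h4 := sub_eq_zero.1 h3
      rw [h4]
      simp
    rw [h2, norm_mul, norm_pow, Complex.norm_ofNat] at h1
    have h5' : ((5 : ℝ) ^ (μ + η)) ≤ 2 ^ l := by exact_mod_cast h5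
    have h6 : (0 : ℝ) ≤ (2 : ℝ) ^ (3 * l) - 1 := by
      have : (1 : ℝ) ≤ 2 ^ (3 * l) := one_le_pow₀ (by norm_num)
      linarith
    have h7 : ((2 : ℝ) ^ (3 * l) - 1) * 5 ^ (μ + η) ≤ ((2 : ℝ) ^ (3 * l) - 1) * 2 ^ l :=
      mul_le_mul_of_nonneg_left h5' h6
    have h8 : ((2 : ℝ) ^ (3 * l) - 1) * 2 ^ l = 2 ^ (4 * l) - 2 ^ l := by
      have : (2 : ℝ) ^ (4 * l) = 2 ^ (3 * l) * 2 ^ l := by
        rw [← pow_add]
        congr 1
        ring
      rw [this]
      ring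
    have h9 : (0 : ℝ) < 2 ^ l := by positivity
    have h10 : (0 : ℝ) < 2 ^ (4 * l) := by positivity
    by_contra hcon
    have h11 : 1 ≤ ‖aeval z r‖ := not_lt.1 hcon
    have h12 : (2 : ℝ) ^ (4 * l) * 1 ≤ 2 ^ (4 * l) * ‖aeval z r‖ :=
      mul_le_mul_of_nonneg_left h11 h10.le
    rw [mul_one] at h12
    linarith
  have h1 : ev (X : ℤ[X]) (Yp i) (Tha (2 * l + 1) (2 * g.natDegree) a) =
      (ev (X : ℤ[X]) (Yp i) (Tha (2 * l + 1) (2 * g.natDegree) a) - C (2 ^ (4 * l)) * r) +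
        C (2 ^ (4 * l)) * r := by ring
  rw [h1]
  exact dvd_add hr (Dvd.dvd.mul_left hgr _)

end Pool.Agent.EDG.H64
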